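import Mathlib
set_option autoImplicit false
open Complex Metric Set Filter Topology

namespace Pool.Agent.Results.MP_140d1b_an.SmallP

/-- `g` is subordinate to `f` on the unit disc: `g = f ∘ φ` there for some analytic self-map `φ`
of the unit disc with `φ 0 = 0`. -/
def Subordinate (g f : ℂ → ℂ) : Prop :=
  ∃ φ : ℂ → ℂ, DifferentiableOn ℂ φ (ball 0 1) ∧ MapsTo φ (ball 0 1) (ball 0 1) ∧ φ 0 = 0 ∧
    ∀ z ∈ ball (0 : ℂ) 1, g z = f (φ z)

/-- The `p`-th integral mean of `h` on the circle `|z| = r`. -/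
noncomputable def integralMean (p r : ℝ) (h : ℂ → ℂ) : ℝ :=
  (Real.circleAverage (fun z => ‖h z‖ ^ p) 0 r) ^ (1 / p)

/-- The radii `ρ` in `(0, 1]` such that the `p`-th mean of the derivative on `|z| = r` does not
increase under subordination for all `0 < r < ρ`. -/
def Radii (p : ℝ) : Set ℝ :=
  {ρ | 0 < ρ ∧ ρ ≤ 1 ∧ ∀ f g : ℂ → ℂ, DifferentiableOn ℂ f (ball 0 1) →
    DifferentiableOn ℂ g (ball 0 1) → Subordinate g f →
    ∀ r : ℝ, 0 < r → r < ρ → integralMean p r (deriv g) ≤ integralMean p r (deriv f)}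

/-- The number `r_p` of the problem. -/
noncomputable def rOf (p : ℝ) : ℝ := sSup (Radii p)

/-- sum of squares of the first `M` coefficients -/
noncomputable def S (M : ℕ) (P : Polynomial ℂ) : ℝ := ∑ i ∈ Finset.range M, ‖P.coeff i‖ ^ 2

theorem S_nonneg (M : ℕ) (P : Polynomial ℂ) : 0 ≤ S M P :=
  Finset.sum_nonneg (fun _ _ => by positivity)

theorem S_eq_support (P : Polynomial ℂ) (M : ℕ) (h : P.natDegree < M) :
    S M P = ∑ i ∈ P.support, ‖P.coeff i‖ ^ 2 := by
  unfold S
  symm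
  apply Finset.sum_subset
  · intro i hi
    rw [Finset.mem_range]
    exact lt_of_le_of_lt (Polynomial.le_natDegree_of_mem_supp i hi) h
  · intro i _ hi
    rw [Polynomial.notMem_support_iff.mp hi]
    simp

theorem S_eq_avg (P : Polynomial ℂ) (M : ℕ) (h : P.natDegree < M) :
    S M P = Real.circleAverage (fun z => ‖P.eval z‖ ^ 2) 0 1 := by
  rw [S_eq_support P M h]
  exact P.sum_sq_norm_coeff_eq_circleAverage

theorem S_le_avg (P : Polynomial ℂ) (M : ℕ) :
    S M P ≤ Real.circleAverage (fun z => ‖P.eval z‖ ^ 2) 0 1 := by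
  rw [← S_eq_avg P (max M (P.natDegree + 1)) (by omega)]
  unfold S
  apply Finset.sum_le_sum_of_subset_of_nonneg
  · intro i hi
    rw [Finset.mem_range] at *
    omega
  · intro i _ _
    positivity

theorem cint (f : ℂ → ℝ) (hf : Continuous f) (r : ℝ) : CircleIntegrable f 0 r :=
  hf.continuousOn.circleIntegrable'

/-- Littlewood for polynomials on the unit circle -/
theorem avg_comp_le (φ : Polynomial ℂ) (h0 : φ.coeff 0 = 0)
    (h1 : ∀ z : ℂ, ‖z‖ ≤ 1 → ‖φ.eval z‖ ≤ 1) :
    ∀ (n : ℕ) (K : Polynomial ℂ), K.natDegree ≤ n →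
      Real.circleAverage (fun z => ‖(K.comp φ).eval z‖ ^ 2) 0 1 ≤
        Real.circleAverage (fun z => ‖K.eval z‖ ^ 2) 0 1 := by
  -- orthogonal decomposition
  have horth : ∀ (a : ℂ) (P : Polynomial ℂ), P.coeff 0 = 0 →
      Real.circleAverage (fun z => ‖(P + Polynomial.C a).eval z‖ ^ 2) 0 1 =
        Real.circleAverage (fun z => ‖P.eval z‖ ^ 2) 0 1 + ‖a‖ ^ 2 := by
    intro a P hP
    have hd : (P + Polynomial.C a).natDegree < P.natDegree + 1 := by
      rw [Polynomial.natDegree_add_C]; omega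
    rw [← S_eq_avg _ _ hd, ← S_eq_avg P (P.natDegree + 1) (by omega)]
    unfold S
    rw [Finset.sum_range_succ', Finset.sum_range_succ']
    simp only [Polynomial.coeff_add, Polynomial.coeff_C, hP]
    simp
  intro n
  induction n with
  | zero =>
    intro K hK
    have : K = Polynomial.C (K.coeff 0) := Polynomial.eq_C_of_natDegree_le_zero hK
    rw [this]
    simp
  | succ n ih =>
    intro K hK
    have hdec : K = K.divX * Polynomial.X + Polynomial.C (K.coeff 0) :=
      (Polynomial.divX_mul_X_add K).symm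
    have hdeg : K.divX.natDegree ≤ n := by
      rw [Polynomial.natDegree_divX_eq_natDegree_tsub_one]; omega
    have e1 : K.comp φ = (K.divX.comp φ * φ) + Polynomial.C (K.coeff 0) := by
      conv_lhs => rw [hdec]
      simp
    have e2 : (K.divX.comp φ * φ).coeff 0 = 0 := by
      rw [Polynomial.mul_coeff_zero, h0, mul_zero]
    rw [e1, horth _ _ e2]
    conv_rhs => rw [hdec]
    rw [horth _ _ (by simp)]
    have e3 : Real.circleAverage (fun z => ‖(K.divX.comp φ * φ).eval z‖ ^ 2) 0 1 ≤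
        Real.circleAverage (fun z => ‖(K.divX.comp φ).eval z‖ ^ 2) 0 1 := by
      apply Real.circleAverage_mono
      · apply cint; fun_prop
      · apply cint; fun_prop
      · intro z hz
        have hz1 : ‖z‖ ≤ 1 := by simpa using le_of_eq (by simpa using hz : ‖z‖ = 1)
        rw [Polynomial.eval_mul, norm_mul, mul_pow]
        have := h1 z hz1
        have h2 : ‖φ.eval z‖ ^ 2 ≤ 1 := by
          have := norm_nonneg (φ.eval z); nlinarith
        have h3 : 0 ≤ ‖(K.divX.comp φ).eval z‖ ^ 2 := by positivity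
        nlinarith
    have e4 : Real.circleAverage (fun z => ‖(K.divX * Polynomial.X).eval z‖ ^ 2) 0 1 =
        Real.circleAverage (fun z => ‖K.divX.eval z‖ ^ 2) 0 1 := by
      apply Real.circleAverage_congr_sphere
      intro z hz
      have hz1 : ‖z‖ = 1 := by simpa using hz
      simp [hz1]
    rw [e4]
    have := ih K.divX hdeg
    linarith

/-- Rogosinski -/
theorem rogosinski (φ K : Polynomial ℂ) (h0 : φ.coeff 0 = 0)
    (h1 : ∀ z : ℂ, ‖z‖ ≤ 1 → ‖φ.eval z‖ ≤ 1) (M : ℕ) : S M (K.comp φ) ≤ S M K := by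
  -- truncation
  set Km : Polynomial ℂ := ∑ i ∈ Finset.range M, Polynomial.C (K.coeff i) * Polynomial.X ^ i with hKm
  have hcoef : ∀ i < M, Km.coeff i = K.coeff i := by
    intro i hi
    rw [hKm, Polynomial.finsetSum_coeff]
    rw [Finset.sum_eq_single i]
    · simp
    · intro j _ hj
      rw [Polynomial.coeff_C_mul_X_pow, if_neg (Ne.symm hj)]
    · intro h
      exact absurd (Finset.mem_range.mpr hi) h
  have hcoef2 : ∀ i, M ≤ i → Km.coeff i = 0 := by
    intro i hi
    rw [hKm, Polynomial.finsetSum_coeff]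
    apply Finset.sum_eq_zero
    intro j hj
    rw [Finset.mem_range] at hj
    rw [Polynomial.coeff_C_mul_X_pow, if_neg (by omega)]
  have hdvd : Polynomial.X ^ M ∣ K - Km := by
    rw [Polynomial.X_pow_dvd_iff]
    intro d hd
    rw [Polynomial.coeff_sub, hcoef d hd, sub_self]
  obtain ⟨L, hL⟩ := hdvd
  have hK : K = Km + Polynomial.X ^ M * L := by rw [← hL]; ring
  have hφ : Polynomial.X ∣ φ := Polynomial.X_dvd_iff.mpr h0
  have hcomp : Polynomial.X ^ M ∣ K.comp φ - Km.comp φ := by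
    have : K.comp φ - Km.comp φ = φ ^ M * L.comp φ := by
      conv_lhs => rw [hK]
      simp
    rw [this]
    exact Dvd.dvd.mul_right (pow_dvd_pow_of_dvd hφ M) _
  have e1 : S M (K.comp φ) = S M (Km.comp φ) := by
    unfold S
    apply Finset.sum_congr rfl
    intro i hi
    rw [Finset.mem_range] at hi
    have := Polynomial.X_pow_dvd_iff.mp hcomp i hi
    rw [Polynomial.coeff_sub, sub_eq_zero] at this
    rw [this]
  have e2 : S M K = S M Km := by
    unfold S
    apply Finset.sum_congr rfl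
    intro i hi
    rw [hcoef i (Finset.mem_range.mp hi)]
  rw [e1, e2]
  refine (S_le_avg _ _).trans ((avg_comp_le φ h0 h1 _ Km le_rfl).trans ?_)
  rw [← S_eq_avg Km (max M (Km.natDegree + 1)) (by omega)]
  unfold S
  apply le_of_eq
  symm
  apply Finset.sum_subset
  · intro i hi
    rw [Finset.mem_range] at *
    omega
  · intro i _ hi
    rw [Finset.mem_range] at hi
    rw [hcoef2 i (by omega)]
    simp

theorem abel (w x : ℕ → ℝ) (hanti : ∀ i, w (i + 1) ≤ w i)
    (hx : ∀ M, 0 ≤ ∑ i ∈ Finset.range M, x i) (M : ℕ) :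
    w M * ∑ i ∈ Finset.range M, x i ≤ ∑ i ∈ Finset.range M, w i * x i := by
  induction M with
  | zero => simp
  | succ M ih =>
    rw [Finset.sum_range_succ (fun i => w i * x i)]
    have h1 : w (M + 1) * ∑ i ∈ Finset.range (M + 1), x i ≤
        w M * ∑ i ∈ Finset.range (M + 1), x i :=
      mul_le_mul_of_nonneg_right (hanti M) (hx (M + 1))
    rw [Finset.sum_range_succ, mul_add] at h1
    rw [Finset.sum_range_succ]
    linarith


theorem parseval (P : Polynomial ℂ) (r : ℝ) (M : ℕ) (h : P.natDegree < M) :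
    Real.circleAverage (fun z => ‖P.eval z‖ ^ 2) 0 r =
      ∑ i ∈ Finset.range M, ‖P.coeff i‖ ^ 2 * r ^ (2 * i) := by
  rw [Real.circleAverage_eq_circleAverage_zero_one]
  have e : (fun z : ℂ => ‖P.eval (↑r * z + 0)‖ ^ 2) =
      fun z => ‖(P.comp (Polynomial.C (r : ℂ) * Polynomial.X)).eval z‖ ^ 2 := by
    ext z
    simp
  rw [e, ← S_eq_avg _ M]
  · unfold S
    apply Finset.sum_congr rfl
    intro i _
    rw [Polynomial.comp_C_mul_X_coeff, norm_mul, mul_pow, norm_pow, Complex.norm_real,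
      ← pow_mul, mul_comm i 2, Real.norm_eq_abs, pow_mul, sq_abs, ← pow_mul]
  · refine lt_of_le_of_lt ?_ h
    refine Polynomial.natDegree_comp_le.trans ?_
    have : (Polynomial.C (r : ℂ) * Polynomial.X).natDegree ≤ 1 :=
      (Polynomial.natDegree_C_mul_le _ _).trans Polynomial.natDegree_X_le
    nlinarith

/-- Littlewood in mean square for polynomials at radius `r ≤ 1`. -/
theorem littlewood_poly (φ K : Polynomial ℂ) (h0 : φ.coeff 0 = 0)
    (h1 : ∀ z : ℂ, ‖z‖ ≤ 1 → ‖φ.eval z‖ ≤ 1) (r : ℝ) (hr0 : 0 ≤ r) (hr : r ≤ 1) :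
    Real.circleAverage (fun z => ‖(K.comp φ).eval z‖ ^ 2) 0 r ≤
      Real.circleAverage (fun z => ‖K.eval z‖ ^ 2) 0 r := by
  set M := max K.natDegree (K.comp φ).natDegree + 1 with hM
  rw [parseval _ r M (by omega), parseval _ r M (by omega)]
  have h := abel (fun i => r ^ (2 * i)) (fun i => ‖K.coeff i‖ ^ 2 - ‖(K.comp φ).coeff i‖ ^ 2)
    (fun i => by
      have : r ^ (2 * (i + 1)) = r ^ (2 * i) * r ^ 2 := by ring
      simp only [this]
      have h2 : r ^ 2 ≤ 1 := by nlinarith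
      have h3 : 0 ≤ r ^ (2 * i) := by positivity
      nlinarith)
    (fun M => by
      rw [Finset.sum_sub_distrib]
      have := rogosinski φ K h0 h1 M
      unfold S at this
      linarith) M
  have h4 : 0 ≤ ∑ i ∈ Finset.range M, (‖K.coeff i‖ ^ 2 - ‖(K.comp φ).coeff i‖ ^ 2) := by
    rw [Finset.sum_sub_distrib]
    have := rogosinski φ K h0 h1 M
    unfold S at this
    linarith
  have h5 : 0 ≤ r ^ (2 * M) * ∑ i ∈ Finset.range M,
      (‖K.coeff i‖ ^ 2 - ‖(K.comp φ).coeff i‖ ^ 2) := mul_nonneg (by positivity) h4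
  have h6 := h5.trans h
  simp only [mul_sub] at h6
  rw [Finset.sum_sub_distrib] at h6
  simp only [mul_comm (r ^ _)] at h6
  linarith

/-- Goluzin's inequality for polynomials. -/
theorem goluzin_poly (φ K : Polynomial ℂ) (h0 : φ.coeff 0 = 0)
    (h1 : ∀ z : ℂ, ‖z‖ ≤ 1 → ‖φ.eval z‖ ≤ 1) (r : ℝ) (hr0 : 0 ≤ r) (hr : r ≤ 1 / 2) :
    Real.circleAverage (fun z => ‖(Polynomial.derivative (K.comp φ)).eval z‖ ^ 2) 0 r ≤
      Real.circleAverage (fun z => ‖(Polynomial.derivative K).eval z‖ ^ 2) 0 r := by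
  set M := max K.natDegree (K.comp φ).natDegree + 1 with hM
  have d1 := Polynomial.natDegree_derivative_le K
  have d2 := Polynomial.natDegree_derivative_le (K.comp φ)
  rw [parseval _ r M (by omega), parseval _ r M (by omega)]
  have hzero : (K.comp φ).coeff 0 = K.coeff 0 := by
    rw [Polynomial.coeff_zero_eq_eval_zero, Polynomial.eval_comp,
      ← Polynomial.coeff_zero_eq_eval_zero φ, h0, ← Polynomial.coeff_zero_eq_eval_zero]
  have hps : ∀ M, 0 ≤ ∑ i ∈ Finset.range M,
      (‖K.coeff (i + 1)‖ ^ 2 - ‖(K.comp φ).coeff (i + 1)‖ ^ 2) := by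
    intro M
    have := rogosinski φ K h0 h1 (M + 1)
    unfold S at this
    rw [Finset.sum_range_succ', Finset.sum_range_succ', hzero] at this
    rw [Finset.sum_sub_distrib]
    linarith
  have h := abel (fun i => ((i : ℝ) + 1) ^ 2 * r ^ (2 * i))
    (fun i => ‖K.coeff (i + 1)‖ ^ 2 - ‖(K.comp φ).coeff (i + 1)‖ ^ 2)
    (fun i => by
      have e : r ^ (2 * (i + 1)) = r ^ (2 * i) * r ^ 2 := by ring
      simp only [e]
      push_cast
      have h2 : r ^ 2 ≤ 1 / 4 := by nlinarith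
      have h3 : 0 ≤ r ^ (2 * i) := by positivity
      have hi : (0 : ℝ) ≤ i := Nat.cast_nonneg i
      have h4 : ((i : ℝ) + 1 + 1) ^ 2 * r ^ 2 ≤ ((i : ℝ) + 1) ^ 2 := by
        have : ((i : ℝ) + 1 + 1) ^ 2 * r ^ 2 ≤ ((i : ℝ) + 1 + 1) ^ 2 * (1 / 4) :=
          mul_le_mul_of_nonneg_left h2 (by positivity)
        nlinarith
      calc ((i : ℝ) + 1 + 1) ^ 2 * (r ^ (2 * i) * r ^ 2)
          = (((i : ℝ) + 1 + 1) ^ 2 * r ^ 2) * r ^ (2 * i) := by ring
        _ ≤ ((i : ℝ) + 1) ^ 2 * r ^ (2 * i) := mul_le_mul_of_nonneg_right h4 h3)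
    hps M
  have h5 : 0 ≤ (((M : ℝ) + 1) ^ 2 * r ^ (2 * M)) * ∑ i ∈ Finset.range M,
      (‖K.coeff (i + 1)‖ ^ 2 - ‖(K.comp φ).coeff (i + 1)‖ ^ 2) :=
    mul_nonneg (by positivity) (hps M)
  have h6 := h5.trans h
  have e7 : ∀ P : Polynomial ℂ, ∑ i ∈ Finset.range M, ‖(Polynomial.derivative P).coeff i‖ ^ 2 *
      r ^ (2 * i) = ∑ i ∈ Finset.range M, (((i : ℝ) + 1) ^ 2 * r ^ (2 * i)) *
        ‖P.coeff (i + 1)‖ ^ 2 := by
    intro P
    apply Finset.sum_congr rfl
    intro i _
    rw [Polynomial.coeff_derivative, norm_mul, mul_pow]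
    have : ‖((i : ℂ) + 1)‖ = (i : ℝ) + 1 := by
      rw [show ((i : ℂ) + 1) = (((i : ℝ) + 1 : ℝ) : ℂ) by push_cast; rfl, Complex.norm_real,
        Real.norm_eq_abs, abs_of_nonneg (by positivity)]
    rw [this]
    ring
  rw [e7, e7]
  simp only [mul_sub] at h6
  rw [Finset.sum_sub_distrib] at h6
  linarith


theorem approx (k : ℂ → ℂ) (r R : ℝ) (hr : 0 ≤ r) (hrR : r < R)
    (hk : DifferentiableOn ℂ k (ball 0 R)) :
    ∃ P : ℕ → Polynomial ℂ, (∀ n, (P n).eval 0 = k 0) ∧
      TendstoUniformlyOn (fun n z => (P n).eval z) k atTop (closedBall 0 r) ∧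
      TendstoUniformlyOn (fun n z => (Polynomial.derivative (P n)).eval z) (deriv k) atTop
        (closedBall 0 r) := by
  obtain ⟨R', hrR', hR'R⟩ := exists_between hrR
  have hR'pos : 0 < R' := lt_of_le_of_lt hr hrR'
  lift R' to NNReal using hR'pos.le
  have hd : DifferentiableOn ℂ k (closedBall 0 R') :=
    hk.mono (closedBall_subset_ball hR'R)
  have hps := hd.hasFPowerSeriesOnBall (by exact_mod_cast hR'pos)
  set p := cauchyPowerSeries k 0 R' with hp
  set P : ℕ → Polynomial ℂ := fun n =>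
    ∑ i ∈ Finset.range (n + 1), Polynomial.C (p.coeff i) * Polynomial.X ^ i with hP
  have hPeval : ∀ n z, (P n).eval z = p.partialSum (n + 1) z := by
    intro n z
    rw [hP, FormalMultilinearSeries.partialSum, Polynomial.eval_finsetSum]
    apply Finset.sum_congr rfl
    intro i _
    rw [p.apply_eq_pow_smul_coeff]
    simp only [Polynomial.eval_mul, Polynomial.eval_C, Polynomial.eval_pow, Polynomial.eval_X,
      smul_eq_mul]
    ring
  have hloc : TendstoLocallyUniformlyOn (fun n z => (P n).eval z) k atTop (ball 0 R') := by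
    have h1 := hps.tendstoLocallyUniformlyOn
    simp only [zero_add] at h1
    have h2 : TendstoLocallyUniformlyOn (fun n z => p.partialSum (n + 1) z) k atTop
        (ball 0 (R' : ℝ)) := by
      rw [Metric.eball_coe] at h1
      intro u hu x hx
      obtain ⟨t, ht, h3⟩ := h1 u hu x hx
      exact ⟨t, ht, (tendsto_add_atTop_nat 1).eventually h3⟩
    simpa only [hPeval] using h2
  have hcomp : IsCompact (closedBall (0 : ℂ) r) := isCompact_closedBall 0 r
  have hsub : closedBall (0 : ℂ) r ⊆ ball 0 R' := closedBall_subset_ball hrR'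
  refine ⟨P, ?_, ?_, ?_⟩
  · intro n
    rw [hPeval]
    have h1 := hps.coeff_zero (fun _ => 0)
    rw [FormalMultilinearSeries.partialSum, Finset.sum_range_succ']
    have h2 : ∀ i ∈ Finset.range n, (p (i + 1) fun _ : Fin (i + 1) => (0 : ℂ)) = 0 := by
      intro i _
      rw [p.apply_eq_pow_smul_coeff]
      simp
    rw [Finset.sum_eq_zero h2, zero_add]
    exact h1
  · exact (tendstoLocallyUniformlyOn_iff_forall_isCompact isOpen_ball).mp hloc _ hsub hcomp
  · have h1 := hloc.deriv (Eventually.of_forall (fun n => (P n).differentiable.differentiableOn))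
      isOpen_ball
    have h2 : (deriv ∘ fun n z => (P n).eval z) =
        fun n z => (Polynomial.derivative (P n)).eval z := by
      ext n z
      simp
    rw [h2] at h1
    exact (tendstoLocallyUniformlyOn_iff_forall_isCompact isOpen_ball).mp h1 _ hsub hcomp


theorem unif_bdd {F : ℕ → ℂ → ℂ} {f : ℂ → ℂ} {s : Set ℂ} (h : TendstoUniformlyOn F f atTop s)
    {C : ℝ} (hC : ∀ z ∈ s, ‖f z‖ ≤ C) : ∀ᶠ n in atTop, ∀ z ∈ s, ‖F n z‖ ≤ C + 1 := by
  have h1 := Metric.tendstoUniformlyOn_iff.mp h 1 one_pos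
  filter_upwards [h1] with n hn z hz
  have h2 := hn z hz
  rw [dist_eq_norm] at h2
  have h3 : ‖F n z‖ ≤ ‖f z‖ + ‖f z - F n z‖ := by
    have : F n z = f z - (f z - F n z) := by ring
    calc ‖F n z‖ = ‖f z - (f z - F n z)‖ := by rw [← this]
      _ ≤ _ := norm_sub_le _ _
  linarith [hC z hz]

theorem avg_tendsto (F : ℕ → ℂ → ℂ) (f : ℂ → ℂ) (p r C : ℝ) (hp : 0 < p)
    (hF : ∀ n, ContinuousOn (F n) (sphere 0 |r|))
    (hb : ∀ᶠ n in atTop, ∀ z ∈ sphere (0 : ℂ) |r|, ‖F n z‖ ≤ C)
    (hlim : ∀ z ∈ sphere (0 : ℂ) |r|, Tendsto (fun n => F n z) atTop (𝓝 (f z))) :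
    Tendsto (fun n => Real.circleAverage (fun z => ‖F n z‖ ^ p) 0 r) atTop
      (𝓝 (Real.circleAverage (fun z => ‖f z‖ ^ p) 0 r)) := by
  unfold Real.circleAverage
  apply Tendsto.const_smul
  apply intervalIntegral.tendsto_integral_filter_of_dominated_convergence (fun _ => C ^ p)
  · refine Eventually.of_forall (fun n => ?_)
    apply Continuous.aestronglyMeasurable
    have h1 : Continuous (fun x => ‖F n (circleMap 0 r x)‖) := by
      apply Continuous.norm
      exact (hF n).comp_continuous (continuous_circleMap 0 r)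
        (fun x => by simp)
    exact h1.rpow_const (fun x => Or.inr hp.le)
  · filter_upwards [hb] with n hn
    refine Eventually.of_forall (fun x _ => ?_)
    rw [Real.norm_eq_abs, abs_of_nonneg (by positivity)]
    exact Real.rpow_le_rpow (norm_nonneg _) (hn _ (by simp)) hp.le
  · exact intervalIntegrable_const
  · refine Eventually.of_forall (fun x _ => ?_)
    have h1 := (hlim (circleMap 0 r x) (by simp)).norm
    exact h1.rpow_const (Or.inr hp.le)

/-- Polynomials have polynomial antiderivatives. -/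
theorem exists_antideriv (P : Polynomial ℂ) : ∃ K : Polynomial ℂ, Polynomial.derivative K = P := by
  refine ⟨∑ i ∈ P.support, Polynomial.C (P.coeff i / ((i : ℂ) + 1)) * Polynomial.X ^ (i + 1), ?_⟩
  rw [Polynomial.derivative_sum]
  conv_rhs => rw [P.as_sum_support_C_mul_X_pow]
  apply Finset.sum_congr rfl
  intro i _
  rw [Polynomial.derivative_C_mul_X_pow]
  congr 2
  have : ((i : ℂ) + 1) ≠ 0 := by exact_mod_cast Nat.succ_ne_zero i
  push_cast
  field_simp


theorem schwarz_poly (φ : Polynomial ℂ) (h0 : φ.coeff 0 = 0)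
    (h1 : ∀ z : ℂ, ‖z‖ ≤ 1 → ‖φ.eval z‖ ≤ 1) (z : ℂ) (hz : ‖z‖ < 1) : ‖φ.eval z‖ ≤ ‖z‖ := by
  apply Complex.norm_le_norm_of_mapsTo_ball (f := fun z => φ.eval z) (R := 1)
    φ.differentiable.differentiableOn _ _ hz
  · intro w hw
    rw [mem_closedBall_zero_iff]
    exact h1 w (mem_ball_zero_iff.mp hw).le
  · change φ.eval 0 = 0
    rw [← Polynomial.coeff_zero_eq_eval_zero, h0]

/-- The two mean-square inequalities for polynomial `φ` and analytic `k`. -/
theorem ineqs (φ : Polynomial ℂ) (h0 : φ.coeff 0 = 0)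
    (h1 : ∀ z : ℂ, ‖z‖ ≤ 1 → ‖φ.eval z‖ ≤ 1) (r : ℝ) (hr0 : 0 < r) (hr : r ≤ 1 / 2)
    (k : ℂ → ℂ) (R : ℝ) (hrR : r < R) (hk : DifferentiableOn ℂ k (ball 0 R)) :
    Real.circleAverage (fun z => ‖k (φ.eval z)‖ ^ (2 : ℝ)) 0 r ≤
      Real.circleAverage (fun z => ‖k z‖ ^ (2 : ℝ)) 0 r ∧
    Real.circleAverage (fun z => ‖k (φ.eval z) * (Polynomial.derivative φ).eval z‖ ^ (2 : ℝ)) 0 r ≤
      Real.circleAverage (fun z => ‖k z‖ ^ (2 : ℝ)) 0 r := by
  obtain ⟨P, -, hP, -⟩ := approx k r R hr0.le hrR hk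
  have habs : |r| = r := abs_of_pos hr0
  have hcont : ContinuousOn k (closedBall 0 r) :=
    hk.continuousOn.mono (closedBall_subset_ball hrR)
  obtain ⟨C, hC⟩ := (isCompact_closedBall (0 : ℂ) r).exists_bound_of_continuousOn hcont
  obtain ⟨D, hD⟩ := (isCompact_closedBall (0 : ℂ) r).exists_bound_of_continuousOn
    (Polynomial.derivative φ).continuous.continuousOn
  have hC0 : 0 ≤ C := (norm_nonneg _).trans (hC 0 (by simp [hr0.le]))
  have hD0 : 0 ≤ D := (norm_nonneg _).trans (hD 0 (by simp [hr0.le]))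
  have hev := unif_bdd hP hC
  have hmap : ∀ z ∈ sphere (0 : ℂ) |r|, φ.eval z ∈ closedBall (0 : ℂ) r := by
    intro z hz
    rw [habs, mem_sphere_zero_iff_norm] at hz
    rw [mem_closedBall_zero_iff]
    have := schwarz_poly φ h0 h1 z (by linarith)
    linarith
  have hself : ∀ z ∈ sphere (0 : ℂ) |r|, z ∈ closedBall (0 : ℂ) r := by
    intro z hz
    rw [habs] at hz
    exact sphere_subset_closedBall hz
  have hL : Tendsto (fun n => Real.circleAverage (fun z => ‖(P n).eval z‖ ^ (2 : ℝ)) 0 r) atTop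
      (𝓝 (Real.circleAverage (fun z => ‖k z‖ ^ (2 : ℝ)) 0 r)) := by
    apply avg_tendsto _ _ 2 r (C + 1) (by norm_num)
    · intro n; exact (P n).continuous.continuousOn
    · filter_upwards [hev] with n hn z hz
      exact hn z (hself z hz)
    · intro z hz
      exact hP.tendsto_at (hself z hz)
  have hA : Tendsto (fun n => Real.circleAverage
      (fun z => ‖(P n).eval (φ.eval z)‖ ^ (2 : ℝ)) 0 r) atTop
      (𝓝 (Real.circleAverage (fun z => ‖k (φ.eval z)‖ ^ (2 : ℝ)) 0 r)) := by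
    apply avg_tendsto (fun n z => (P n).eval (φ.eval z)) (fun z => k (φ.eval z)) 2 r (C + 1)
      (by norm_num)
    · intro n; fun_prop
    · filter_upwards [hev] with n hn z hz
      exact hn _ (hmap z hz)
    · intro z hz
      exact hP.tendsto_at (hmap z hz)
  have hB : Tendsto (fun n => Real.circleAverage
      (fun z => ‖(P n).eval (φ.eval z) * (Polynomial.derivative φ).eval z‖ ^ (2 : ℝ)) 0 r) atTop
      (𝓝 (Real.circleAverage
        (fun z => ‖k (φ.eval z) * (Polynomial.derivative φ).eval z‖ ^ (2 : ℝ)) 0 r)) := by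
    apply avg_tendsto (fun n z => (P n).eval (φ.eval z) * (Polynomial.derivative φ).eval z)
      (fun z => k (φ.eval z) * (Polynomial.derivative φ).eval z) 2 r ((C + 1) * D)
      (by norm_num)
    · intro n; fun_prop
    · filter_upwards [hev] with n hn z hz
      rw [norm_mul]
      exact mul_le_mul (hn _ (hmap z hz)) (hD z (hself z hz)) (norm_nonneg _) (by linarith)
    · intro z hz
      exact (hP.tendsto_at (hmap z hz)).mul_const _
  constructor
  · apply le_of_tendsto_of_tendsto' hA hL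
    intro n
    have := littlewood_poly φ (P n) h0 h1 r hr0.le (by linarith)
    simpa [Polynomial.eval_comp] using this
  · apply le_of_tendsto_of_tendsto' hB hL
    intro n
    obtain ⟨K, hK⟩ := exists_antideriv (P n)
    have := goluzin_poly φ K h0 h1 r hr0.le hr
    rw [Polynomial.derivative_comp, hK] at this
    simpa [Polynomial.eval_comp, mul_comm] using this


/-- `q` has a good zero-free majorant on the disc of radius `r`. -/
def Good (p r : ℝ) (q : ℂ → ℂ) : Prop :=
  ∃ R : ℝ, r < R ∧ ∃ k : ℂ → ℂ, DifferentiableOn ℂ k (ball 0 R) ∧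
    (∀ z ∈ closedBall (0 : ℂ) r, ‖q z‖ ^ p ≤ ‖k z‖ ^ (2 : ℝ)) ∧
    (∀ z ∈ sphere (0 : ℂ) r, ‖q z‖ ^ p = ‖k z‖ ^ (2 : ℝ))

theorem Good.mul {p r : ℝ} {q1 q2 : ℂ → ℂ} (h1 : Good p r q1) (h2 : Good p r q2) :
    Good p r (fun z => q1 z * q2 z) := by
  obtain ⟨R1, hR1, k1, hd1, ha1, hb1⟩ := h1
  obtain ⟨R2, hR2, k2, hd2, ha2, hb2⟩ := h2
  refine ⟨min R1 R2, lt_min hR1 hR2, fun z => k1 z * k2 z, ?_, ?_, ?_⟩
  · exact (hd1.mono (ball_subset_ball (min_le_left _ _))).mul
      (hd2.mono (ball_subset_ball (min_le_right _ _)))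
  · intro z hz
    rw [norm_mul, norm_mul, Real.mul_rpow (norm_nonneg _) (norm_nonneg _),
      Real.mul_rpow (norm_nonneg _) (norm_nonneg _)]
    exact mul_le_mul (ha1 z hz) (ha2 z hz) (by positivity) (by positivity)
  · intro z hz
    rw [norm_mul, norm_mul, Real.mul_rpow (norm_nonneg _) (norm_nonneg _),
      Real.mul_rpow (norm_nonneg _) (norm_nonneg _), hb1 z hz, hb2 z hz]

theorem Good.const (p r : ℝ) (c : ℂ) : Good p r (fun _ => c) := by
  refine ⟨r + 1, by linarith, fun _ => ((‖c‖ ^ (p / 2) : ℝ) : ℂ), by fun_prop, ?_⟩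
  have : ‖((‖c‖ ^ (p / 2) : ℝ) : ℂ)‖ ^ (2 : ℝ) = ‖c‖ ^ p := by
    rw [Complex.norm_real, Real.norm_eq_abs, abs_of_nonneg (by positivity),
      ← Real.rpow_mul (norm_nonneg _)]
    congr 1
    ring
  constructor
  · intro z _
    rw [this]
  · intro z _
    rw [this]

theorem good_aux (p : ℝ) (γ : ℝ) (hγ : 0 < γ) (b : ℂ) (R : ℝ) (hbR : ‖b‖ * R ≤ 1) :
    DifferentiableOn ℂ (fun z => ((γ ^ (p / 2) : ℝ) : ℂ) * (1 - b * z) ^ (((p / 2 : ℝ)) : ℂ))
      (ball 0 R) ∧
    ∀ z, ‖((γ ^ (p / 2) : ℝ) : ℂ) * (1 - b * z) ^ (((p / 2 : ℝ)) : ℂ)‖ ^ (2 : ℝ) =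
      (γ * ‖1 - b * z‖) ^ p := by
  constructor
  · apply DifferentiableOn.const_mul
    apply DifferentiableOn.cpow_const
    · fun_prop
    · intro z hz
      left
      rw [mem_ball_zero_iff] at hz
      have h1 : ‖b * z‖ < 1 := by
        rw [norm_mul]
        rcases eq_or_lt_of_le (norm_nonneg b) with h | h
        · rw [← h]; simp
        · calc ‖b‖ * ‖z‖ < ‖b‖ * R := by gcongr
            _ ≤ 1 := hbR
      have h2 : (b * z).re ≤ ‖b * z‖ := Complex.re_le_norm _
      simp only [Complex.sub_re, Complex.one_re]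
      linarith
  · intro z
    rw [norm_mul, Complex.norm_cpow_real, Complex.norm_real, Real.norm_eq_abs,
      abs_of_nonneg (by positivity), Real.mul_rpow (by positivity) (by positivity),
      ← Real.rpow_mul hγ.le, ← Real.rpow_mul (norm_nonneg _),
      Real.mul_rpow hγ.le (norm_nonneg _)]
    congr 2 <;> ring

theorem Good.linear (p : ℝ) (hp : 0 < p) (r : ℝ) (hr : 0 < r) (a : ℂ) (ha : ‖a‖ ≠ r) :
    Good p r (fun z => z - a) := by
  rcases lt_or_gt_of_ne ha with h | h
  · -- root inside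
    have hkey2 : ∀ z : ℂ, ‖(r : ℂ) ^ 2 - starRingEnd ℂ a * z‖ ^ 2 - r ^ 2 * ‖z - a‖ ^ 2 =
        (r ^ 2 - ‖z‖ ^ 2) * (r ^ 2 - ‖a‖ ^ 2) := by
      intro z
      rw [← Complex.normSq_eq_norm_sq, ← Complex.normSq_eq_norm_sq,
        ← Complex.normSq_eq_norm_sq, ← Complex.normSq_eq_norm_sq]
      simp only [Complex.normSq_apply, pow_two, Complex.sub_re, Complex.sub_im, Complex.mul_re,
        Complex.mul_im, Complex.ofReal_re, Complex.ofReal_im, Complex.conj_re, Complex.conj_im]
      ring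
    have hkey : ∀ z : ℂ, (r * ‖1 - (starRingEnd ℂ a / (r : ℂ) ^ 2) * z‖) ^ 2 - ‖z - a‖ ^ 2 =
        (r ^ 2 - ‖z‖ ^ 2) * (r ^ 2 - ‖a‖ ^ 2) / r ^ 2 := by
      intro z
      rw [← hkey2 z]
      have hrc : (r : ℂ) ≠ 0 := by exact_mod_cast hr.ne'
      have e : (r : ℂ) ^ 2 - starRingEnd ℂ a * z =
          (r : ℂ) ^ 2 * (1 - (starRingEnd ℂ a / (r : ℂ) ^ 2) * z) := by
        field_simp
      rw [e, norm_mul, norm_pow, Complex.norm_real, Real.norm_eq_abs, abs_of_pos hr]
      field_simp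
    set R : ℝ := 2 * r ^ 2 / (r + ‖a‖) with hR
    have hra : 0 < r + ‖a‖ := by positivity
    have hrR : r < R := by
      rw [hR, lt_div_iff₀ hra]
      nlinarith
    have hbR : ‖(starRingEnd ℂ a / (r : ℂ) ^ 2)‖ * R ≤ 1 := by
      rw [norm_div, norm_pow, Complex.norm_real, Real.norm_eq_abs, abs_of_pos hr,
        RCLike.norm_conj, hR]
      have : ‖a‖ / r ^ 2 * (2 * r ^ 2 / (r + ‖a‖)) = 2 * ‖a‖ / (r + ‖a‖) := by
        field_simp
      rw [this, div_le_one hra]
      linarith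
    obtain ⟨hd, hn⟩ := good_aux p r hr (starRingEnd ℂ a / (r : ℂ) ^ 2) R hbR
    refine ⟨R, hrR, _, hd, ?_, ?_⟩
    · intro z hz
      rw [hn]
      apply Real.rpow_le_rpow (norm_nonneg _) _ hp.le
      rw [mem_closedBall_zero_iff] at hz
      have h1 := hkey z
      have h2 : 0 ≤ (r ^ 2 - ‖z‖ ^ 2) * (r ^ 2 - ‖a‖ ^ 2) / r ^ 2 := by
        apply div_nonneg _ (by positivity)
        apply mul_nonneg
        · have := norm_nonneg z; nlinarith
        · have := norm_nonneg a; nlinarith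
      rw [← h1] at h2
      apply le_of_sq_le_sq _ (by positivity)
      linarith
    · intro z hz
      rw [hn]
      congr 1
      rw [mem_sphere_zero_iff_norm] at hz
      have h1 := hkey z
      rw [hz, sub_self, zero_mul, zero_div] at h1
      have h2 : (r * ‖1 - (starRingEnd ℂ a / (r : ℂ) ^ 2) * z‖) ^ 2 = ‖z - a‖ ^ 2 := by linarith
      exact ((sq_eq_sq₀ (by positivity) (norm_nonneg _)).mp h2).symm
  · -- root outside
    have ha0 : a ≠ 0 := by
      rintro rfl
      simp at h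
      linarith
    have hna : 0 < ‖a‖ := norm_pos_iff.mpr ha0
    obtain ⟨hd, hn⟩ := good_aux p ‖a‖ hna a⁻¹ ‖a‖ (by
      rw [norm_inv, inv_mul_cancel₀ hna.ne'])
    have he : ∀ z : ℂ, ‖z - a‖ = ‖a‖ * ‖1 - a⁻¹ * z‖ := by
      intro z
      rw [← norm_mul, mul_sub, ← mul_assoc, mul_inv_cancel₀ ha0, one_mul, mul_one, norm_sub_rev]
    refine ⟨‖a‖, h, _, hd, ?_, ?_⟩
    · intro z _
      rw [hn, he]
    · intro z _
      rw [hn, he]

theorem Good.poly (p : ℝ) (hp : 0 < p) (r : ℝ) (hr : 0 < r) (q : Polynomial ℂ)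
    (hq : ∀ a ∈ q.roots, ‖a‖ ≠ r) : Good p r (fun z => q.eval z) := by
  have h1 : ∀ s : Multiset ℂ, (∀ a ∈ s, ‖a‖ ≠ r) →
      Good p r (fun z => ((s.map (fun a => Polynomial.X - Polynomial.C a)).prod).eval z) := by
    intro s
    induction s using Multiset.induction_on with
    | empty =>
      intro _
      simpa using Good.const p r 1
    | cons a s ih =>
      intro h
      have := (Good.linear p hp r hr a (h a (Multiset.mem_cons_self a s))).mul
        (ih (fun b hb => h b (Multiset.mem_cons_of_mem hb)))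
      simpa using this
  have h2 := (Good.const p r q.leadingCoeff).mul (h1 q.roots hq)
  have h3 : q = Polynomial.C q.leadingCoeff *
      (q.roots.map (fun a => Polynomial.X - Polynomial.C a)).prod :=
    (IsAlgClosed.splits q).eq_prod_roots
  have h4 : (fun z => q.eval z) = fun z => q.leadingCoeff *
      ((q.roots.map (fun a => Polynomial.X - Polynomial.C a)).prod).eval z := by
    ext z
    conv_lhs => rw [h3]
    rw [Polynomial.eval_mul, Polynomial.eval_C]
  rw [h4]
  exact h2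


theorem rpow_le_mix (p : ℝ) (hp0 : 0 < p) (hp2 : p ≤ 2) (x : ℝ) (hx : 0 ≤ x) :
    x ^ p ≤ (p / 2) * x ^ (2 : ℝ) + (1 - p / 2) := by
  have h := Real.geom_mean_le_arith_mean2_weighted (w₁ := p / 2) (w₂ := 1 - p / 2)
    (p₁ := x ^ (2 : ℝ)) (p₂ := 1) (by linarith) (by linarith) (by positivity) zero_le_one (by ring)
  rw [Real.one_rpow, mul_one, mul_one, ← Real.rpow_mul hx] at h
  have : (2 : ℝ) * (p / 2) = p := by ring
  rwa [this] at h

theorem poly_ineq_generic (p : ℝ) (hp0 : 0 < p) (hp2 : p ≤ 2) (φ q : Polynomial ℂ)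
    (h0 : φ.coeff 0 = 0) (h1 : ∀ z : ℂ, ‖z‖ ≤ 1 → ‖φ.eval z‖ ≤ 1) (r : ℝ) (hr0 : 0 < r)
    (hr : r ≤ 1 / 2) (hq : ∀ a ∈ q.roots, ‖a‖ ≠ r) :
    Real.circleAverage (fun z => ‖q.eval (φ.eval z) * (Polynomial.derivative φ).eval z‖ ^ p) 0 r ≤
      Real.circleAverage (fun z => ‖q.eval z‖ ^ p) 0 r := by
  obtain ⟨R, hrR, k, hk, hk1, hk2⟩ := Good.poly p hp0 r hr0 q hq
  obtain ⟨i1, i2⟩ := ineqs φ h0 h1 r hr0 hr k R hrR hk
  have habs : |r| = r := abs_of_pos hr0
  have hmap : ∀ z ∈ sphere (0 : ℂ) r, φ.eval z ∈ closedBall (0 : ℂ) r := by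
    intro z hz
    rw [mem_sphere_zero_iff_norm] at hz
    rw [mem_closedBall_zero_iff]
    have := schwarz_poly φ h0 h1 z (by linarith)
    linarith
  have hkφ : ContinuousOn (fun z => k (φ.eval z)) (sphere (0 : ℂ) r) := by
    apply ContinuousOn.comp (t := closedBall (0 : ℂ) r)
    · exact hk.continuousOn.mono (closedBall_subset_ball hrR)
    · exact φ.continuous.continuousOn
    · exact hmap
  have hkc : ContinuousOn k (sphere (0 : ℂ) r) :=
    hk.continuousOn.mono (sphere_subset_closedBall.trans (closedBall_subset_ball hrR))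
  have c1 : CircleIntegrable (fun z => ‖k (φ.eval z)‖ ^ (2 : ℝ)) 0 r :=
    (hkφ.norm.rpow_const (fun _ _ => Or.inr (by norm_num))).circleIntegrable hr0.le
  have c2 : CircleIntegrable
      (fun z => ‖k (φ.eval z) * (Polynomial.derivative φ).eval z‖ ^ (2 : ℝ)) 0 r :=
    ((hkφ.mul (Polynomial.derivative φ).continuous.continuousOn).norm.rpow_const
      (fun _ _ => Or.inr (by norm_num))).circleIntegrable hr0.le
  have c3 : CircleIntegrable
      (fun z => ‖q.eval (φ.eval z) * (Polynomial.derivative φ).eval z‖ ^ p) 0 r := by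
    apply ContinuousOn.circleIntegrable hr0.le
    apply ContinuousOn.rpow_const
    · fun_prop
    · exact fun _ _ => Or.inr hp0.le
  have e1 : Real.circleAverage (fun z => ‖q.eval z‖ ^ p) 0 r =
      Real.circleAverage (fun z => ‖k z‖ ^ (2 : ℝ)) 0 r := by
    apply Real.circleAverage_congr_sphere
    intro z hz
    rw [habs] at hz
    exact hk2 z hz
  have c4 : CircleIntegrable (fun z => (p / 2) • (‖k (φ.eval z) *
      (Polynomial.derivative φ).eval z‖ ^ (2 : ℝ))) 0 r := by
    exact c2.const_smul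
  have c5 : CircleIntegrable (fun z => (1 - p / 2) • (‖k (φ.eval z)‖ ^ (2 : ℝ))) 0 r := by
    exact c1.const_smul
  rw [e1]
  calc Real.circleAverage
        (fun z => ‖q.eval (φ.eval z) * (Polynomial.derivative φ).eval z‖ ^ p) 0 r
      ≤ Real.circleAverage (fun z => (p / 2) • (‖k (φ.eval z) *
          (Polynomial.derivative φ).eval z‖ ^ (2 : ℝ)) +
          (1 - p / 2) • (‖k (φ.eval z)‖ ^ (2 : ℝ))) 0 r := by
        apply Real.circleAverage_mono c3 (c4.add c5)
        intro z hz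
        rw [habs] at hz
        have a1 := hk1 (φ.eval z) (hmap z hz)
        have a2 := rpow_le_mix p hp0 hp2 ‖(Polynomial.derivative φ).eval z‖ (norm_nonneg _)
        simp only [Pi.add_apply]
        rw [norm_mul, norm_mul, Real.mul_rpow (norm_nonneg _) (norm_nonneg _),
          Real.mul_rpow (norm_nonneg _) (norm_nonneg _), smul_eq_mul, smul_eq_mul]
        calc ‖q.eval (φ.eval z)‖ ^ p * ‖(Polynomial.derivative φ).eval z‖ ^ p
            ≤ ‖k (φ.eval z)‖ ^ (2 : ℝ) * ‖(Polynomial.derivative φ).eval z‖ ^ p :=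
              mul_le_mul_of_nonneg_right a1 (by positivity)
          _ ≤ ‖k (φ.eval z)‖ ^ (2 : ℝ) *
              ((p / 2) * ‖(Polynomial.derivative φ).eval z‖ ^ (2 : ℝ) + (1 - p / 2)) :=
              mul_le_mul_of_nonneg_left a2 (by positivity)
          _ = _ := by ring
    _ = (p / 2) * Real.circleAverage (fun z => ‖k (φ.eval z) *
          (Polynomial.derivative φ).eval z‖ ^ (2 : ℝ)) 0 r +
          (1 - p / 2) * Real.circleAverage (fun z => ‖k (φ.eval z)‖ ^ (2 : ℝ)) 0 r := by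
        rw [Real.circleAverage_fun_add c4 c5, Real.circleAverage_fun_smul,
          Real.circleAverage_fun_smul, smul_eq_mul, smul_eq_mul]
    _ ≤ (p / 2) * Real.circleAverage (fun z => ‖k z‖ ^ (2 : ℝ)) 0 r +
          (1 - p / 2) * Real.circleAverage (fun z => ‖k z‖ ^ (2 : ℝ)) 0 r := by
        apply add_le_add
        · exact mul_le_mul_of_nonneg_left i2 (by linarith)
        · exact mul_le_mul_of_nonneg_left i1 (by linarith)
    _ = _ := by ring

theorem poly_ineq (p : ℝ) (hp0 : 0 < p) (hp2 : p ≤ 2) (φ q : Polynomial ℂ)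
    (h0 : φ.coeff 0 = 0) (h1 : ∀ z : ℂ, ‖z‖ ≤ 1 → ‖φ.eval z‖ ≤ 1) (r : ℝ) (hr0 : 0 < r)
    (hr : r ≤ 1 / 2) :
    Real.circleAverage (fun z => ‖q.eval (φ.eval z) * (Polynomial.derivative φ).eval z‖ ^ p) 0 r ≤
      Real.circleAverage (fun z => ‖q.eval z‖ ^ p) 0 r := by
  classical
  set A : ℝ → ℝ := Real.circleAverage
    (fun z => ‖q.eval (φ.eval z) * (Polynomial.derivative φ).eval z‖ ^ p) 0 with hA
  set B : ℝ → ℝ := Real.circleAverage (fun z => ‖q.eval z‖ ^ p) 0 with hB
  have cA : Continuous A := by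
    apply Real.Continuous.circleAverage
    apply Continuous.rpow_const
    · fun_prop
    · exact fun _ => Or.inr hp0.le
  have cB : Continuous B := by
    apply Real.Continuous.circleAverage
    apply Continuous.rpow_const
    · fun_prop
    · exact fun _ => Or.inr hp0.le
  -- radii avoiding the moduli of the roots
  set T : Set ℝ := (fun a : ℂ => ‖a‖) '' (q.roots.toFinset : Set ℂ) with hT
  have hTfin : T.Finite := (Finset.finite_toSet _).image _
  have hgood : ∀ s ∈ Ioo (0 : ℝ) (1 / 2) \ T, A s ≤ B s := by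
    intro s hs
    apply poly_ineq_generic p hp0 hp2 φ q h0 h1 s hs.1.1 hs.1.2.le
    intro a ha h
    apply hs.2
    exact ⟨a, by simpa using ha, h⟩
  have hcl : r ∈ closure (Ioo (0 : ℝ) (1 / 2) \ T) := by
    have h2 : closure (Ioo (0 : ℝ) (1 / 2) \ T) = Icc 0 (1 / 2) := by
      have hd : Dense (Tᶜ) := hTfin.countable.dense_compl ℝ
      have h3 : Ioo (0 : ℝ) (1 / 2) \ T = Ioo (0 : ℝ) (1 / 2) ∩ Tᶜ := rfl
      rw [h3]
      apply Subset.antisymm
      · calc closure (Ioo (0 : ℝ) (1 / 2) ∩ Tᶜ) ⊆ closure (Ioo (0 : ℝ) (1 / 2)) :=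
            closure_mono inter_subset_left
          _ = Icc 0 (1 / 2) := closure_Ioo (by norm_num)
      · rw [← closure_Ioo (by norm_num : (0 : ℝ) ≠ 1 / 2)]
        apply closure_minimal _ isClosed_closure
        exact hd.open_subset_closure_inter isOpen_Ioo
    rw [h2]
    exact ⟨hr0.le, hr⟩
  have hclosed : IsClosed {s | A s ≤ B s} := isClosed_le cA cB
  have hsub : closure (Ioo (0 : ℝ) (1 / 2) \ T) ⊆ {s | A s ≤ B s} :=
    closure_minimal hgood hclosed
  exact hsub hcl


/-- polynomial `φ`, analytic `F` -/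
theorem semi_ineq (p : ℝ) (hp0 : 0 < p) (hp2 : p ≤ 2) (φ : Polynomial ℂ) (F : ℂ → ℂ)
    (hF : DifferentiableOn ℂ F (ball 0 1))
    (h0 : φ.coeff 0 = 0) (h1 : ∀ z : ℂ, ‖z‖ ≤ 1 → ‖φ.eval z‖ ≤ 1) (r : ℝ) (hr0 : 0 < r)
    (hr : r ≤ 1 / 2) :
    Real.circleAverage (fun z => ‖F (φ.eval z) * (Polynomial.derivative φ).eval z‖ ^ p) 0 r ≤
      Real.circleAverage (fun z => ‖F z‖ ^ p) 0 r := by
  obtain ⟨P, -, hP, -⟩ := approx F r 1 hr0.le (by linarith) hF
  have habs : |r| = r := abs_of_pos hr0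
  have hcont : ContinuousOn F (closedBall 0 r) :=
    hF.continuousOn.mono (closedBall_subset_ball (by linarith))
  obtain ⟨C, hC⟩ := (isCompact_closedBall (0 : ℂ) r).exists_bound_of_continuousOn hcont
  obtain ⟨D, hD⟩ := (isCompact_closedBall (0 : ℂ) r).exists_bound_of_continuousOn
    (Polynomial.derivative φ).continuous.continuousOn
  have hC0 : 0 ≤ C := (norm_nonneg _).trans (hC 0 (by simp [hr0.le]))
  have hev := unif_bdd hP hC
  have hmap : ∀ z ∈ sphere (0 : ℂ) |r|, φ.eval z ∈ closedBall (0 : ℂ) r := by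
    intro z hz
    rw [habs, mem_sphere_zero_iff_norm] at hz
    rw [mem_closedBall_zero_iff]
    have := schwarz_poly φ h0 h1 z (by linarith)
    linarith
  have hself : ∀ z ∈ sphere (0 : ℂ) |r|, z ∈ closedBall (0 : ℂ) r := by
    intro z hz
    rw [habs] at hz
    exact sphere_subset_closedBall hz
  have hL : Tendsto (fun n => Real.circleAverage (fun z => ‖(P n).eval z‖ ^ p) 0 r) atTop
      (𝓝 (Real.circleAverage (fun z => ‖F z‖ ^ p) 0 r)) := by
    apply avg_tendsto _ _ p r (C + 1) hp0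
    · intro n; exact (P n).continuous.continuousOn
    · filter_upwards [hev] with n hn z hz
      exact hn z (hself z hz)
    · intro z hz
      exact hP.tendsto_at (hself z hz)
  have hB : Tendsto (fun n => Real.circleAverage
      (fun z => ‖(P n).eval (φ.eval z) * (Polynomial.derivative φ).eval z‖ ^ p) 0 r) atTop
      (𝓝 (Real.circleAverage
        (fun z => ‖F (φ.eval z) * (Polynomial.derivative φ).eval z‖ ^ p) 0 r)) := by
    apply avg_tendsto (fun n z => (P n).eval (φ.eval z) * (Polynomial.derivative φ).eval z)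
      (fun z => F (φ.eval z) * (Polynomial.derivative φ).eval z) p r ((C + 1) * D) hp0
    · intro n; fun_prop
    · filter_upwards [hev] with n hn z hz
      rw [norm_mul]
      exact mul_le_mul (hn _ (hmap z hz)) (hD z (hself z hz)) (norm_nonneg _) (by linarith)
    · intro z hz
      exact (hP.tendsto_at (hmap z hz)).mul_const _
  apply le_of_tendsto_of_tendsto' hB hL
  intro n
  exact poly_ineq p hp0 hp2 φ (P n) h0 h1 r hr0 hr

/-- analytic self maps of the disc are approximated by polynomial self maps -/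
theorem approx_self (φ : ℂ → ℂ) (hφ : DifferentiableOn ℂ φ (ball 0 1))
    (hmaps : MapsTo φ (ball 0 1) (ball 0 1)) (hφ0 : φ 0 = 0) (t : ℝ) (ht0 : 0 < t) (ht1 : t < 1) :
    ∃ ψ : Polynomial ℂ, ψ.coeff 0 = 0 ∧ (∀ z : ℂ, ‖z‖ ≤ 1 → ‖ψ.eval z‖ ≤ 1) ∧
      ∀ z ∈ closedBall (0 : ℂ) 1, ‖ψ.eval z - φ (t * z)‖ ≤ 1 - t ∧
        ‖(Polynomial.derivative ψ).eval z - t * deriv φ (t * z)‖ ≤ 1 - t := by
  have hmt : ∀ z ∈ ball (0 : ℂ) (1 / t), (t : ℂ) * z ∈ ball (0 : ℂ) 1 := by
    intro z hz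
    rw [mem_ball_zero_iff] at *
    rw [norm_mul, Complex.norm_real, Real.norm_eq_abs, abs_of_pos ht0]
    rw [lt_div_iff₀ ht0] at hz
    linarith
  have hk : DifferentiableOn ℂ (fun z => φ (t * z)) (ball 0 (1 / t)) := by
    apply hφ.comp (by fun_prop)
    exact hmt
  have h1t : 1 < 1 / t := by rw [lt_div_iff₀ ht0]; linarith
  obtain ⟨P, hP0, hP, hP'⟩ := approx (fun z => φ (t * z)) 1 (1 / t) zero_le_one h1t hk
  have e1 := Metric.tendstoUniformlyOn_iff.mp hP (1 - t) (by linarith)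
  have e2 := Metric.tendstoUniformlyOn_iff.mp hP' (1 - t) (by linarith)
  obtain ⟨n, hn1, hn2⟩ := (e1.and e2).exists
  refine ⟨P n, ?_, ?_, ?_⟩
  · rw [Polynomial.coeff_zero_eq_eval_zero, hP0]
    simp [hφ0]
  · intro z hz
    have h2 := (hn1 z (mem_closedBall_zero_iff.mpr hz)).le
    rw [dist_eq_norm] at h2
    have h3 : ‖φ (t * z)‖ ≤ t := by
      have hlt : ‖(t : ℂ) * z‖ < 1 := by
        rw [norm_mul, Complex.norm_real, Real.norm_eq_abs, abs_of_pos ht0]
        nlinarith [norm_nonneg z]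
      have h4 := Complex.norm_le_norm_of_mapsTo_ball hφ
        (fun w hw => ball_subset_closedBall (hmaps hw)) hφ0 hlt
      refine h4.trans ?_
      rw [norm_mul, Complex.norm_real, Real.norm_eq_abs, abs_of_pos ht0]
      nlinarith [norm_nonneg z]
    have h5 : ‖(P n).eval z‖ ≤ ‖φ (t * z)‖ + ‖φ (t * z) - (P n).eval z‖ := by
      have : (P n).eval z = φ (t * z) - (φ (t * z) - (P n).eval z) := by ring
      calc ‖(P n).eval z‖ = ‖φ (t * z) - (φ (t * z) - (P n).eval z)‖ := by rw [← this]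
        _ ≤ _ := norm_sub_le _ _
    linarith
  · intro z hz
    constructor
    · have h2 := (hn1 z hz).le
      rwa [dist_eq_norm, norm_sub_rev] at h2
    · have h2 := (hn2 z hz).le
      rw [dist_eq_norm, norm_sub_rev] at h2
      have h3 : deriv (fun z => φ (t * z)) z = t * deriv φ (t * z) := by
        have h4 : (t : ℂ) * z ∈ ball (0 : ℂ) 1 := by
          apply hmt
          rw [mem_ball_zero_iff]
          rw [mem_closedBall_zero_iff] at hz
          linarith
        have h5 : HasDerivAt φ (deriv φ (t * z)) (t * z) :=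
          (hφ.differentiableAt (isOpen_ball.mem_nhds h4)).hasDerivAt
        have h6 : HasDerivAt (fun z : ℂ => (t : ℂ) * z) (t : ℂ) z := by
          simpa using (hasDerivAt_id z).const_mul (t : ℂ)
        have h7 := h5.comp z h6
        rw [mul_comm (t : ℂ)]
        exact h7.deriv
      rw [h3] at h2
      exact h2

theorem general (p : ℝ) (hp0 : 0 < p) (hp2 : p ≤ 2) (F φ : ℂ → ℂ)
    (hF : DifferentiableOn ℂ F (ball 0 1)) (hφ : DifferentiableOn ℂ φ (ball 0 1))
    (hmaps : MapsTo φ (ball 0 1) (ball 0 1)) (hφ0 : φ 0 = 0) (r : ℝ) (hr0 : 0 < r)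
    (hr : r ≤ 1 / 2) :
    Real.circleAverage (fun z => ‖F (φ z) * deriv φ z‖ ^ p) 0 r ≤
      Real.circleAverage (fun z => ‖F z‖ ^ p) 0 r := by
  set t : ℕ → ℝ := fun n => 1 - 1 / ((n : ℝ) + 2) with ht
  have ht0 : ∀ n, 0 < t n := by
    intro n
    have h1 : (0 : ℝ) < (n : ℝ) + 2 := by positivity
    have h2 : 1 / ((n : ℝ) + 2) < 1 := by
      rw [div_lt_one h1]
      have : (0 : ℝ) ≤ n := Nat.cast_nonneg n
      linarith
    simp only [ht]
    linarith
  have ht1 : ∀ n, t n < 1 := by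
    intro n
    have h1 : (0 : ℝ) < 1 / ((n : ℝ) + 2) := by positivity
    simp only [ht]
    linarith
  have htlim : Tendsto t atTop (𝓝 1) := by
    have h1 : Tendsto (fun n : ℕ => 1 / ((n : ℝ) + 2)) atTop (𝓝 0) := by
      apply Tendsto.div_atTop tendsto_const_nhds
      exact tendsto_atTop_add_const_right _ _ tendsto_natCast_atTop_atTop
    have := h1.const_sub 1
    rw [sub_zero] at this
    exact this
  choose ψ hψ0 hψ1 hψ2 using fun n => approx_self φ hφ hmaps hφ0 (t n) (ht0 n) (ht1 n)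
  have habs : |r| = r := abs_of_pos hr0
  have hsph : ∀ z ∈ sphere (0 : ℂ) |r|, z ∈ ball (0 : ℂ) 1 := by
    intro z hz
    rw [habs, mem_sphere_zero_iff_norm] at hz
    rw [mem_ball_zero_iff]
    linarith
  have htz : ∀ z : ℂ, Tendsto (fun n => (t n : ℂ) * z) atTop (𝓝 z) := by
    intro z
    have h1 : Tendsto (fun n => (t n : ℂ)) atTop (𝓝 ((1 : ℝ) : ℂ)) :=
      (Complex.continuous_ofReal.tendsto 1).comp htlim
    have h2 := h1.mul_const z
    simpa using h2
  have h1t : Tendsto (fun n => 1 - t n) atTop (𝓝 0) := by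
    have := htlim.const_sub 1
    simpa using this
  have hlimψ : ∀ z ∈ ball (0 : ℂ) 1, Tendsto (fun n => (ψ n).eval z) atTop (𝓝 (φ z)) := by
    intro z hz
    have a1 : Tendsto (fun n => φ (t n * z)) atTop (𝓝 (φ z)) :=
      ((hφ.differentiableAt (isOpen_ball.mem_nhds hz)).continuousAt.tendsto).comp (htz z)
    have a2 : Tendsto (fun n => (ψ n).eval z - φ (t n * z)) atTop (𝓝 0) := by
      apply squeeze_zero_norm _ h1t
      intro n
      exact (hψ2 n z (ball_subset_closedBall hz)).1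
    have a3 := a2.add a1
    simpa using a3
  have hlimψ' : ∀ z ∈ ball (0 : ℂ) 1,
      Tendsto (fun n => (Polynomial.derivative (ψ n)).eval z) atTop (𝓝 (deriv φ z)) := by
    intro z hz
    have hd : DifferentiableOn ℂ (deriv φ) (ball 0 1) := hφ.deriv isOpen_ball
    have a1 : Tendsto (fun n => deriv φ (t n * z)) atTop (𝓝 (deriv φ z)) :=
      ((hd.differentiableAt (isOpen_ball.mem_nhds hz)).continuousAt.tendsto).comp (htz z)
    have a0 : Tendsto (fun n => (t n : ℂ)) atTop (𝓝 ((1 : ℝ) : ℂ)) :=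
      (Complex.continuous_ofReal.tendsto 1).comp htlim
    have a2 : Tendsto (fun n => (Polynomial.derivative (ψ n)).eval z -
        t n * deriv φ (t n * z)) atTop (𝓝 0) := by
      apply squeeze_zero_norm _ h1t
      intro n
      exact (hψ2 n z (ball_subset_closedBall hz)).2
    have a3 := a2.add (a0.mul a1)
    simpa using a3
  -- bounds
  have hcont : ContinuousOn F (closedBall 0 r) :=
    hF.continuousOn.mono (closedBall_subset_ball (by linarith))
  obtain ⟨C, hC⟩ := (isCompact_closedBall (0 : ℂ) r).exists_bound_of_continuousOn hcont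
  have hC0 : 0 ≤ C := (norm_nonneg _).trans (hC 0 (by simp [hr0.le]))
  have hmap : ∀ n, ∀ z ∈ sphere (0 : ℂ) |r|, (ψ n).eval z ∈ closedBall (0 : ℂ) r := by
    intro n z hz
    rw [habs, mem_sphere_zero_iff_norm] at hz
    rw [mem_closedBall_zero_iff]
    have := schwarz_poly (ψ n) (hψ0 n) (hψ1 n) z (by linarith)
    linarith
  have hder : ∀ n, ∀ z ∈ sphere (0 : ℂ) |r|, ‖(Polynomial.derivative (ψ n)).eval z‖ ≤ 2 := by
    intro n z hz
    rw [habs, mem_sphere_zero_iff_norm] at hz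
    have h2 := Complex.norm_deriv_le_of_forall_mem_sphere_norm_le (c := z) (R := 1 / 2) (C := 1)
      (f := fun w => (ψ n).eval w) (by norm_num) (ψ n).differentiable.diffContOnCl
      (by
        intro w hw
        apply hψ1 n
        rw [mem_sphere_iff_norm] at hw
        calc ‖w‖ = ‖(w - z) + z‖ := by ring_nf
          _ ≤ ‖w - z‖ + ‖z‖ := norm_add_le _ _
          _ ≤ 1 := by rw [hw, hz]; linarith)
    rw [Polynomial.deriv] at h2
    linarith
  have hB : Tendsto (fun n => Real.circleAverage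
      (fun z => ‖F ((ψ n).eval z) * (Polynomial.derivative (ψ n)).eval z‖ ^ p) 0 r) atTop
      (𝓝 (Real.circleAverage (fun z => ‖F (φ z) * deriv φ z‖ ^ p) 0 r)) := by
    apply avg_tendsto (fun n z => F ((ψ n).eval z) * (Polynomial.derivative (ψ n)).eval z)
      (fun z => F (φ z) * deriv φ z) p r (C * 2) hp0
    · intro n
      apply ContinuousOn.mul
      · apply ContinuousOn.comp hcont (ψ n).continuous.continuousOn
        exact hmap n
      · exact (Polynomial.derivative (ψ n)).continuous.continuousOn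
    · apply Eventually.of_forall
      intro n z hz
      rw [norm_mul]
      exact mul_le_mul (hC _ (hmap n z hz)) (hder n z hz) (norm_nonneg _) hC0
    · intro z hz
      have hz1 := hsph z hz
      apply Tendsto.mul _ (hlimψ' z hz1)
      exact ((hF.differentiableAt (isOpen_ball.mem_nhds (hmaps hz1))).continuousAt.tendsto).comp
        (hlimψ z hz1)
  apply le_of_tendsto hB
  apply Eventually.of_forall
  intro n
  exact semi_ineq p hp0 hp2 (ψ n) F hF (hψ0 n) (hψ1 n) r hr0 hr


theorem half_mem (p : ℝ) (hp0 : 0 < p) (hp2 : p ≤ 2) : (1 / 2 : ℝ) ∈ Radii p := by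
  refine ⟨by norm_num, by norm_num, ?_⟩
  intro f g hf _ hsub r hr0 hr
  obtain ⟨φ, hφ, hmaps, hφ0, hg⟩ := hsub
  have habs : |r| = r := abs_of_pos hr0
  have hF : DifferentiableOn ℂ (deriv f) (ball 0 1) := hf.deriv isOpen_ball
  have h1 := general p hp0 hp2 (deriv f) φ hF hφ hmaps hφ0 r hr0 hr.le
  have h2 : Real.circleAverage (fun z => ‖deriv g z‖ ^ p) 0 r =
      Real.circleAverage (fun z => ‖deriv f (φ z) * deriv φ z‖ ^ p) 0 r := by
    apply Real.circleAverage_congr_sphere
    intro z hz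
    have hz1 : z ∈ ball (0 : ℂ) 1 := by
      rw [habs, mem_sphere_zero_iff_norm] at hz
      rw [mem_ball_zero_iff]
      linarith
    have hev : g =ᶠ[𝓝 z] f ∘ φ := by
      filter_upwards [isOpen_ball.mem_nhds hz1] with w hw
      exact hg w hw
    have hd : deriv g z = deriv f (φ z) * deriv φ z := by
      rw [hev.deriv_eq]
      exact deriv_comp z (hf.differentiableAt (isOpen_ball.mem_nhds (hmaps hz1)))
        (hφ.differentiableAt (isOpen_ball.mem_nhds hz1))
    simp only [hd]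
  unfold integralMean
  apply Real.rpow_le_rpow _ _ (by positivity)
  · apply Real.circleAverage_nonneg_of_nonneg
    intro z _
    positivity
  · rw [h2]
    exact h1

theorem le_half (p : ℝ) (hp0 : 0 < p) (ρ : ℝ) (hρ : ρ ∈ Radii p) : ρ ≤ 1 / 2 := by
  obtain ⟨hρ0, hρ1, hall⟩ := hρ
  by_contra hcon
  push Not at hcon
  obtain ⟨r, hr1, hr2⟩ := exists_between hcon
  have hr0 : 0 < r := by linarith
  have habs : |r| = r := abs_of_pos hr0
  have h := hall (fun z => z) (fun z => z ^ 2) (by fun_prop) (by fun_prop)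
    ⟨fun z => z ^ 2, by fun_prop, by
      intro z hz
      rw [mem_ball_zero_iff] at *
      rw [norm_pow]
      exact pow_lt_one₀ (norm_nonneg _) hz (by norm_num), by norm_num, fun z _ => rfl⟩ r hr0 hr2
  unfold integralMean at h
  have e1 : Real.circleAverage (fun z => ‖deriv (fun z : ℂ => z) z‖ ^ p) 0 r = 1 := by
    have : (fun z : ℂ => ‖deriv (fun z : ℂ => z) z‖ ^ p) = fun _ => (1 : ℝ) := by
      ext z
      simp
    rw [this, Real.circleAverage_const]
  have e2 : Real.circleAverage (fun z => ‖deriv (fun z : ℂ => z ^ 2) z‖ ^ p) 0 r =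
      (2 * r) ^ p := by
    apply Real.circleAverage_const_on_circle
    intro z hz
    rw [habs, mem_sphere_zero_iff_norm] at hz
    have : deriv (fun z : ℂ => z ^ 2) z = 2 * z := by simp
    rw [this, norm_mul, hz]
    simp
  rw [e1, e2, Real.one_rpow, ← Real.rpow_mul (by positivity)] at h
  have : p * (1 / p) = 1 := by field_simp
  rw [this, Real.rpow_one] at h
  linarith

/-- For every `0 < p ≤ 2` the extremal radius is `1/2`, and it is attained in the defining set. -/
theorem result (p : ℝ) (hp0 : 0 < p) (hp2 : p ≤ 2) :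
    IsGreatest (Radii p) (1 / 2) ∧ rOf p = 1 / 2 := by
  have h : IsGreatest (Radii p) (1 / 2) := ⟨half_mem p hp0 hp2, fun ρ hρ => le_half p hp0 ρ hρ⟩
  exact ⟨h, h.csSup_eq⟩

end Pool.Agent.Results.MP_140d1b_an.SmallP
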